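import Pool.Agent.TH451.MB.Main
import Pool.Agent.TH267.MB_ES
import Pool.Agent.TH267.MB_FAM4
import Pool.Agent.TH267.MB_GAME
import Pool.Agent.TH883.MB.MB_FAM1
import Pool.Agent.TH883.MB.MB_FAM2
import Pool.Agent.TH883.MB.MB_TREEFACTS
import Pool.Agent.TH645.MB_FAM3
import Pool.Agent.TH645.MB_PHASE
import Pool.Agent.TH645.MB_FARSTAR
import Pool.Agent.TH645.MB_RARE
import Pool.Agent.TH993.MB_EMBEDTREE
import Pool.Agent.TH493.MB_EMBED
import Pool.Agent.TH126.MB_BARE
import Pool.Agent.TH999.MB_LEAFCLOSE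
import Pool.Agent.TH999.MB_PATHHALL
import Pool.Agent.TH999.MB_PATHCLOSE
import Pool.Agent.TH451.MB.StarNot
import Pool.Agent.TH929.MB.Hall
import Pool.Agent.TH959.MB_BIJ
import Pool.Agent.TH124.MB_PATHSTATIC
import Pool.Agent.TH469.MB_LEAFY1
import Pool.Agent.TH469.MB_LEAFY2

/-!
# The degree threshold in the Maker-Breaker spanning tree game is linear

`d(n)` = the largest `d` such that Maker (moving second) wins the (1:1) tree embedding game on
`E(K_n)` for every `n`-vertex tree of maximum degree at most `d`. We show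
`n / 10 ^ 11 ≤ d(n) ≤ n - 2` for all large `n`; so `d(n)` has order of magnitude `n`.

The game is the inductive predicate `MakerWinsFrom` (file `Pool/Agent/TH451/MB/Defs.lean`).
-/

namespace Pool.Agent.Results.MP_9916e0_co.LinearThreshold

open Finset Pool.Agent.TH451.MB

open Classical in
/-- Maker wins the (1:1) tree embedding game on `E(K_n)` (Breaker moving first) for every tree on
`n` vertices of maximum degree at most `d`. -/
def MakerWinsAllTrees (n d : ℕ) : Prop :=
  ∀ T : SimpleGraph (Fin n), T.IsTree → (∀ v, T.degree v ≤ d) → MakerWins T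

theorem result : ∃ n₀ : ℕ, ∀ n ≥ n₀, ∃ d : ℕ,
    IsGreatest {k : ℕ | MakerWinsAllTrees n k} d ∧ (n : ℝ) / 10 ^ 11 ≤ d ∧ d + 2 ≤ n := by
  classical
  have hG : StGame := TH267.MB.game_static TH267.MB.es_pair TH883.MB.fam_p1 TH883.MB.fam_p2
    TH645.MB.fam_p3 TH267.MB.fam_p4
  have hE : StEmbed := TH493.MB.embed_forest TH993.MB.embed_tree
  have hP : StPathStatic := TH124.MB.path_static hE TH126.MB.bare TH959.MBBij.bij TH645.MB.rare
    TH999.MB.path_hall TH999.MB.path_close
  have hLS : StLeafStructure := TH883.MB.leaf_structure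
  have hL1 : StLeafy1 := TH469.MB.leafy1 hE TH999.MB.leaf_close TH929.MB.hall1 hLS
  have hL2 : StLeafy2 := TH469.MB.leafy2 hE TH999.MB.leaf_close TH929.MB.hall2 hLS
  obtain ⟨n0, hmain⟩ := maker_wins_all hG TH645.MB.phase_free TH645.MB.phase_star
    TH645.MB.far_star hL1 hL2 hP TH883.MB.sum_nb hLS TH883.MB.star_closed
  refine ⟨max n0 (10 ^ 11), ?_⟩
  intro n hn
  have hn0 : n0 ≤ n := le_trans (le_max_left _ _) hn
  have hn1 : 10 ^ 11 ≤ n := le_trans (le_max_right _ _) hn
  have hnbdeg : ∀ (T : SimpleGraph (Fin n)) (v : Fin n), (nb T v univ).card = T.degree v := by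
    intro T v
    rw [← SimpleGraph.card_neighborFinset_eq_degree]
    congr 1
    ext z
    simp [mem_nb]
  have hmem : MakerWinsAllTrees n (n / 10 ^ 10) := by
    intro T hT hd
    apply hmain n hn0 T hT
    intro t
    rw [hnbdeg]
    have := hd t
    omega
  have hdown : ∀ a b, a ≤ b → MakerWinsAllTrees n b → MakerWinsAllTrees n a := by
    intro a b hab h T hT hd
    exact h T hT (fun v => (hd v).trans hab)
  have hnot : ¬ MakerWinsAllTrees n (n - 1) := by
    intro h
    obtain ⟨T, hT, hTn⟩ := star_not (n := n) (by omega)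
    apply hTn
    apply h T hT
    intro v
    have := T.degree_lt_card_verts v
    rw [Fintype.card_fin] at this
    omega
  have hlt : ∀ k, MakerWinsAllTrees n k → k < n - 1 := by
    intro k hk
    by_contra hcon
    push Not at hcon
    exact hnot (hdown _ _ hcon hk)
  set d : ℕ := Nat.findGreatest (fun k => MakerWinsAllTrees n k) n with hd
  have hd1 : MakerWinsAllTrees n d :=
    Nat.findGreatest_spec (P := fun k => MakerWinsAllTrees n k) (m := n / 10 ^ 10)
      (Nat.div_le_self _ _) hmem
  have hd2 : n / 10 ^ 10 ≤ d :=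
    Nat.le_findGreatest (P := fun k => MakerWinsAllTrees n k) (Nat.div_le_self _ _) hmem
  refine ⟨d, ⟨hd1, ?_⟩, ?_, ?_⟩
  · intro k hk
    exact Nat.le_findGreatest (P := fun k => MakerWinsAllTrees n k)
      (by have := hlt k hk; omega) hk
  · have h1 : n ≤ 10 ^ 11 * d := by omega
    have h2 : (n : ℝ) ≤ 10 ^ 11 * d := by exact_mod_cast h1
    rw [div_le_iff₀ (by positivity)]
    linarith
  · have := hlt d hd1
    omega

end Pool.Agent.Results.MP_9916e0_co.LinearThreshold
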